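import Mathlib

/-!
# Sunflowers: from sets with two elements to finite sets

The core of the argument, for a set `K` of structures in which everything can be done for copies of the
members of `K`.
-/

universe u v w

namespace Pool.Agent.X225.Sf

open FirstOrder FirstOrder.Language CategoryTheory

/-- the distinct members of `S` meet in one common set -/
def IsSunflower {V : Type w} (S : Set (Finset V)) : Prop :=
  ∃ r : Set V, ∀ p ∈ S, ∀ q ∈ S, p ≠ q → (p : Set V) ∩ (q : Set V) = r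

variable {L : FirstOrder.Language.{u, v}} (K : Set (Bundled.{w} L.Structure))

/-- every function is constant or injective on a copy -/
def CI : Prop :=
  ∀ B ∈ K, ∃ C ∈ K, ∀ (T : Type w) (f : C → T), ∃ j : B ↪[L] C,
    (∀ x y, f (j x) = f (j y)) ∨ Function.Injective (f ∘ j)

/-- every colouring with two colours is constant on a copy -/
def Col : Prop :=
  ∀ B ∈ K, ∃ C ∈ K, ∀ (c : C → Bool), ∃ j : B ↪[L] C, ∀ x y, c (j x) = c (j y)

variable {K}

theorem Col.two (h : Col K) : ∀ B ∈ K, ∃ C ∈ K, ∀ (c1 c2 : C → Bool), ∃ j : B ↪[L] C,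
    (∀ x y, c1 (j x) = c1 (j y)) ∧ ∀ x y, c2 (j x) = c2 (j y) := by
  intro B hB
  obtain ⟨C1, hC1, h1⟩ := h B hB
  obtain ⟨C2, hC2, h2⟩ := h C1 hC1
  refine ⟨C2, hC2, fun c1 c2 => ?_⟩
  obtain ⟨j2, hj2⟩ := h2 c1
  obtain ⟨j1, hj1⟩ := h1 (c2 ∘ j2)
  exact ⟨j2.comp j1, fun x y => hj2 _ _, fun x y => hj1 x y⟩

/-- a property of the functions `C → V^n` -/
abbrev PropT (L : FirstOrder.Language.{u, v}) (n : ℕ) : Type _ :=
  ∀ (V : Type w) (C : Bundled.{w} L.Structure), (C → Fin n → V) → Prop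

/-- inherited by copies -/
def Her {n : ℕ} (Q : PropT.{u, v, w} L n) : Prop :=
  ∀ (V : Type w) (C B : Bundled.{w} L.Structure) (p : C → Fin n → V) (j : B ↪[L] C),
    Q V C p → Q V B (p ∘ j)

/-- can be obtained on copies under the assumption `H` -/
def Ach (K : Set (Bundled.{w} L.Structure)) {n : ℕ} (H Q : PropT.{u, v, w} L n) : Prop :=
  ∀ B ∈ K, ∃ C ∈ K, ∀ (V : Type w) (p : C → Fin n → V), H V C p → ∃ j : B ↪[L] C, Q V B (p ∘ j)

theorem iterate {n : ℕ} {ι : Type} (s : Finset ι) (H : PropT.{u, v, w} L n) (hH : Her H)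
    (Q : ι → PropT.{u, v, w} L n) (hQ : ∀ i ∈ s, Her (Q i)) (hQ2 : ∀ i ∈ s, Ach K H (Q i)) :
    Ach K H (fun V C p => ∀ i ∈ s, Q i V C p) := by
  classical
  induction s using Finset.induction_on with
  | empty =>
    intro B hB
    exact ⟨B, hB, fun V p _ => ⟨Embedding.refl L B, fun i hi => absurd hi (Finset.notMem_empty i)⟩⟩
  | insert a s ha ih =>
    intro B hB
    obtain ⟨C1, hC1, h1⟩ := ih (fun i hi => hQ i (Finset.mem_insert_of_mem hi))
      (fun i hi => hQ2 i (Finset.mem_insert_of_mem hi)) B hB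
    obtain ⟨C2, hC2, h2⟩ := hQ2 a (Finset.mem_insert_self a s) C1 hC1
    refine ⟨C2, hC2, fun V p hp => ?_⟩
    obtain ⟨j2, hj2⟩ := h2 V p hp
    obtain ⟨j1, hj1⟩ := h1 V (p ∘ j2) (hH _ _ _ _ _ hp)
    refine ⟨j2.comp j1, fun i hi => ?_⟩
    have e : p ∘ (j2.comp j1) = (p ∘ j2) ∘ j1 := rfl
    rw [e]
    rcases Finset.mem_insert.1 hi with rfl | hi
    · exact hQ _ (Finset.mem_insert_self _ s) _ _ _ _ _ hj2
    · exact hj1 i hi

/-- colouring along a well-founded relation -/
theorem exists_alternating {M : Type w} (lt : M → M → Prop) (hwf : WellFounded lt) (r : M → M) :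
    ∃ c : M → Bool, ∀ y, lt (r y) y → c y = !c (r y) := by
  classical
  refine ⟨hwf.fix fun y ih => if h : lt (r y) y then !(ih (r y) h) else false, fun y h => ?_⟩
  rw [hwf.fix_eq, dif_pos h]

/-- colourings separating `x` from `y` if `E x y`, for a relation in which each element has at most one
successor and at most one predecessor -/
theorem exists_colours {M : Type w} (E : M → M → Prop)
    (h1 : ∀ x y y', E x y → E x y' → y = y') (h2 : ∀ x x' y, E x y → E x' y → x = x') :
    ∃ c1 c2 : M → Bool, ∀ x y, x ≠ y → E x y → c1 x ≠ c1 y ∨ c2 x ≠ c2 y := by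
  classical
  let lt : M → M → Prop := WellOrderingRel
  have hwf : WellFounded lt := WellOrderingRel.isWellOrder.toIsWellFounded.wf
  obtain ⟨c1, hc1⟩ := exists_alternating lt hwf
    (fun y => if h : ∃ x, E x y then h.choose else y)
  obtain ⟨c2, hc2⟩ := exists_alternating lt hwf
    (fun x => if h : ∃ y, E x y then h.choose else x)
  refine ⟨c1, c2, fun x y hxy hE => ?_⟩
  rcases trichotomous_of (WellOrderingRel (α := M)) x y with h | h | h
  · left
    have hex : ∃ x, E x y := ⟨x, hE⟩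
    have e : hex.choose = x := h2 _ _ y hex.choose_spec hE
    have h3 := hc1 y
    simp only [dif_pos hex, e] at h3
    rw [h3 h]
    cases c1 x <;> simp
  · exact absurd h hxy
  · right
    have hex : ∃ y, E x y := ⟨y, hE⟩
    have e : hex.choose = y := h1 x _ _ hex.choose_spec hE
    have h3 := hc2 x
    simp only [dif_pos hex, e] at h3
    rw [h3 h]
    cases c2 y <;> simp

/-- the enumerations are injective -/
def H0 (L : FirstOrder.Language.{u, v}) (n : ℕ) : PropT.{u, v, w} L n :=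
  fun _ _ p => ∀ x, Function.Injective (p x)

/-- the `i`-th coordinate is constant or injective -/
def QA (L : FirstOrder.Language.{u, v}) (n : ℕ) (i : Fin n) : PropT.{u, v, w} L n :=
  fun _ _ p => (∀ x y, p x i = p y i) ∨ Function.Injective fun x => p x i

/-- different coordinates of different elements are different -/
def QR (L : FirstOrder.Language.{u, v}) (n : ℕ) (i : Fin n × Fin n) : PropT.{u, v, w} L n :=
  fun _ _ p => ∀ x y, x ≠ y → i.1 ≠ i.2 → p x i.1 ≠ p y i.2

/-- the standing assumption for the second step -/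
def H1 (L : FirstOrder.Language.{u, v}) (n : ℕ) : PropT.{u, v, w} L n :=
  fun V C p => H0 L n V C p ∧ ∀ i ∈ (Finset.univ : Finset (Fin n)), QA L n i V C p

theorem her_H0 (n : ℕ) : Her (H0.{u, v, w} L n) := fun _ _ _ _ j h x => h (j x)

theorem her_QA (n : ℕ) (i : Fin n) : Her (QA.{u, v, w} L n i) := by
  intro V C B p j h
  rcases h with h | h
  · exact Or.inl fun x y => h (j x) (j y)
  · exact Or.inr (h.comp j.injective)

theorem her_QR (n : ℕ) (i : Fin n × Fin n) : Her (QR.{u, v, w} L n i) :=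
  fun _ _ _ _ j h x y hxy hi => h (j x) (j y) (fun e => hxy (j.injective e)) hi

theorem her_H1 (n : ℕ) : Her (H1.{u, v, w} L n) :=
  fun V C B p j h => ⟨her_H0 n V C B p j h.1, fun i hi => her_QA n i V C B p j (h.2 i hi)⟩

theorem ach_QA (h : CI K) (n : ℕ) (i : Fin n) : Ach K (H0.{u, v, w} L n) (QA.{u, v, w} L n i) := by
  intro B hB
  obtain ⟨C, hC, h1⟩ := h B hB
  refine ⟨C, hC, fun V p _ => ?_⟩
  obtain ⟨j, hj⟩ := h1 V (fun x => p x i)
  exact ⟨j, hj⟩

theorem ach_QR (h : Col K) (n : ℕ) (i : Fin n × Fin n) :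
    Ach K (H1.{u, v, w} L n) (QR.{u, v, w} L n i) := by
  classical
  intro B hB
  obtain ⟨C, hC, h1⟩ := h.two B hB
  refine ⟨C, hC, fun V p hp => ?_⟩
  by_cases hi : i.1 = i.2
  · obtain ⟨j, -⟩ := h1 (fun _ => true) (fun _ => true)
    exact ⟨j, fun _ _ _ hi' => absurd hi hi'⟩
  rcases hp.2 i.1 (Finset.mem_univ _) with ha | ha
  · rcases hp.2 i.2 (Finset.mem_univ _) with hb | hb
    · obtain ⟨j, -⟩ := h1 (fun _ => true) (fun _ => true)
      refine ⟨j, fun x y _ _ he => hi (hp.1 (j y) ?_)⟩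
      rw [← ha (j x) (j y)]
      exact he
    · by_cases hex : Nonempty C
      · obtain ⟨x0⟩ := hex
        obtain ⟨j, hj, -⟩ := h1 (fun y => decide (p y i.2 = p x0 i.1)) (fun _ => true)
        refine ⟨j, fun x y hxy _ he => ?_⟩
        change p (j x) i.1 = p (j y) i.2 at he
        have h3 : p (j y) i.2 = p x0 i.1 := by rw [← he, ha (j x) x0]
        have h4 : decide (p (j x) i.2 = p x0 i.1) = true :=
          (hj x y).trans (decide_eq_true h3)
        exact hxy (j.injective (hb ((of_decide_eq_true h4).trans h3.symm)))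
      · obtain ⟨j, -⟩ := h1 (fun _ => true) (fun _ => true)
        exact ⟨j, fun x _ _ _ => absurd ⟨j x⟩ hex⟩
  · rcases hp.2 i.2 (Finset.mem_univ _) with hb | hb
    · by_cases hex : Nonempty C
      · obtain ⟨x0⟩ := hex
        obtain ⟨j, hj, -⟩ := h1 (fun y => decide (p y i.1 = p x0 i.2)) (fun _ => true)
        refine ⟨j, fun x y hxy _ he => ?_⟩
        change p (j x) i.1 = p (j y) i.2 at he
        have h3 : p (j x) i.1 = p x0 i.2 := by rw [he, hb (j y) x0]
        have h4 : decide (p (j y) i.1 = p x0 i.2) = true :=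
          (hj x y).symm.trans (decide_eq_true h3)
        exact hxy (j.injective (ha (h3.trans (of_decide_eq_true h4).symm)))
      · obtain ⟨j, -⟩ := h1 (fun _ => true) (fun _ => true)
        exact ⟨j, fun x _ _ _ => absurd ⟨j x⟩ hex⟩
    · obtain ⟨c1, c2, hc⟩ := exists_colours (fun x y => p x i.1 = p y i.2)
        (fun x y y' h h' => hb (h.symm.trans h')) (fun x x' y h h' => ha (h.trans h'.symm))
      obtain ⟨j, hj1, hj2⟩ := h1 c1 c2
      refine ⟨j, fun x y hxy _ he => ?_⟩
      rcases hc (j x) (j y) (fun e => hxy (j.injective e)) he with h3 | h3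
      · exact h3 (hj1 x y)
      · exact h3 (hj2 x y)

/-- **The core**: sunflowers of sets of any size -/
theorem main (hCI : CI K) (hCol : Col K) (n : ℕ) :
    ∀ B ∈ K, ∃ C ∈ K, ∀ (V : Type w) (p : C → Finset V), (∀ x, (p x).card = n) →
      ∃ j : B ↪[L] C, IsSunflower (Set.range (p ∘ j)) := by
  classical
  intro B hB
  obtain ⟨C1, hC1, h1⟩ := iterate Finset.univ (H1.{u, v, w} L n) (her_H1 n) (QR L n)
    (fun i _ => her_QR n i) (fun i _ => ach_QR hCol n i) B hB
  obtain ⟨C2, hC2, h2⟩ := iterate Finset.univ (H0.{u, v, w} L n) (her_H0 n) (QA L n)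
    (fun i _ => her_QA n i) (fun i _ => ach_QA hCI n i) C1 hC1
  refine ⟨C2, hC2, fun V p hp => ?_⟩
  have hen : ∀ x, ∃ e : Fin n → V, Function.Injective e ∧ Set.range e = (p x : Set V) := by
    intro x
    let e := (p x).equivFinOfCardEq (hp x)
    refine ⟨fun i => (e.symm i : V), fun i i' h => e.symm.injective (Subtype.ext h), ?_⟩
    ext v
    constructor
    · rintro ⟨i, rfl⟩
      exact (e.symm i).2
    · intro hv
      exact ⟨e ⟨v, hv⟩, by simp⟩
  choose f hf1 hf2 using hen
  obtain ⟨j2, hj2⟩ := h2 V f hf1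
  obtain ⟨j1, hj1⟩ := h1 V (f ∘ j2) ⟨her_H0 n _ _ _ _ _ hf1, hj2⟩
  refine ⟨j2.comp j1, {v | ∀ x, v ∈ (p (j2 (j1 x)) : Set V)}, ?_⟩
  rintro _ ⟨x, rfl⟩ _ ⟨y, rfl⟩ hxy
  have hne : x ≠ y := fun h => hxy (by rw [h])
  apply Set.eq_of_subset_of_subset
  · rintro v ⟨hv1, hv2⟩ z
    change v ∈ (p (j2 (j1 x)) : Set V) at hv1
    change v ∈ (p (j2 (j1 y)) : Set V) at hv2
    rw [← hf2] at hv1 hv2 ⊢
    obtain ⟨i, hi⟩ := hv1
    obtain ⟨i', hi'⟩ := hv2
    by_cases hii : i = i'
    · subst hii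
      rcases hj2 i (Finset.mem_univ _) with h3 | h3
      · exact ⟨i, (h3 (j1 z) (j1 x)).trans hi⟩
      · exact absurd (j1.injective (h3 (hi.trans hi'.symm))) hne
    · exact absurd (hi.trans hi'.symm) (hj1 (i, i') (Finset.mem_univ _) x y hne hii)
  · intro v hv
    exact ⟨hv x, hv y⟩

end Pool.Agent.X225.Sf
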